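import Pool.Agent.H18.HIT.Targets

/-!
# HEN: Hensel's lemma, all roots in power series
-/

set_option autoImplicit false

open MvPolynomial
open Pool.Agent.H12.ZD (pmap v O Res DenseOrbit NoInv)
open Pool.Agent.H18.HIT

namespace Pool.Agent.H58.HIT

theorem pf_HEN : T_HEN := by
  classical
  intro S _ E Ψ α hΨ hmap hα
  rcases subsingleton_or_nontrivial S with hS | hS
  · have h1 : Subsingleton (PowerSeries S) := ⟨fun a b => PowerSeries.ext fun n =>
      Subsingleton.elim _ _⟩
    have h2 : Subsingleton (Polynomial (PowerSeries S)) := ⟨fun a b => Polynomial.ext fun n =>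
      Subsingleton.elim _ _⟩
    exact ⟨fun _ => 0, fun a => Subsingleton.elim _ _, Subsingleton.elim _ _⟩
  have hH : HenselianRing (PowerSeries S) (Ideal.span {(PowerSeries.X : PowerSeries S)}) :=
    inferInstance
  have hnod : ∀ a, (Polynomial.derivative
      (∏ b, (Polynomial.X - Polynomial.C (α b)))).eval (α a) =
      ∏ b ∈ Finset.univ.erase a, (α a - α b) := by
    intro a
    have h1 := Lagrange.eval_nodal_derivative_eval_node_eq (s := (Finset.univ : Finset (Fin E)))
      (v := α) (Finset.mem_univ a)
    unfold Lagrange.nodal at h1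
    rw [h1, Polynomial.eval_prod]
    refine Finset.prod_congr rfl fun b _ => ?_
    rw [Polynomial.eval_sub, Polynomial.eval_X, Polynomial.eval_C]
  have hroot : ∀ a, ∃ T : PowerSeries S, Ψ.IsRoot T ∧ PowerSeries.constantCoeff T = α a := by
    intro a
    have h1 : Ψ.eval (PowerSeries.C (α a)) ∈ Ideal.span {(PowerSeries.X : PowerSeries S)} := by
      rw [Ideal.mem_span_singleton, PowerSeries.X_dvd_iff, ← Polynomial.eval₂_hom,
        ← Polynomial.eval_map, hmap, PowerSeries.constantCoeff_C, Polynomial.eval_prod]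
      refine Finset.prod_eq_zero (Finset.mem_univ a) ?_
      rw [Polynomial.eval_sub, Polynomial.eval_X, Polynomial.eval_C, sub_self]
    have h2 : IsUnit (Ψ.derivative.eval (PowerSeries.C (α a))) := by
      rw [PowerSeries.isUnit_iff_constantCoeff, ← Polynomial.eval₂_hom, ← Polynomial.eval_map,
        ← Polynomial.derivative_map, hmap, PowerSeries.constantCoeff_C, hnod]
      rw [IsUnit.prod_iff]
      intro b hb
      exact hα a b (Finset.ne_of_mem_erase hb).symm
    obtain ⟨T, hT, hTa⟩ := hH.is_henselian Ψ hΨ (PowerSeries.C (α a)) h1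
      (h2.map (Ideal.Quotient.mk _))
    refine ⟨T, hT, ?_⟩
    rw [Ideal.mem_span_singleton, PowerSeries.X_dvd_iff, map_sub, PowerSeries.constantCoeff_C,
      sub_eq_zero] at hTa
    exact hTa
  choose T hT hTa using hroot
  refine ⟨T, hTa, ?_⟩
  have hdvd : (∏ a, (Polynomial.X - Polynomial.C (T a))) ∣ Ψ := by
    apply Finset.prod_dvd_of_coprime
    · intro a _ b _ hab
      apply Polynomial.isCoprime_X_sub_C_of_isUnit_sub
      rw [PowerSeries.isUnit_iff_constantCoeff, map_sub, hTa, hTa]
      exact hα a b hab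
    · intro a _
      exact Polynomial.dvd_iff_isRoot.2 (hT a)
  have hmon : (∏ a, (Polynomial.X - Polynomial.C (T a))).Monic :=
    Polynomial.monic_prod_of_monic _ _ fun a _ => Polynomial.monic_X_sub_C _
  refine Polynomial.eq_of_monic_of_dvd_of_natDegree_le hmon hΨ hdvd ?_
  have h1 : Ψ.natDegree = E := by
    have h2 := hΨ.natDegree_map (PowerSeries.constantCoeff (R := S))
    rw [hmap] at h2
    rw [← h2, Polynomial.natDegree_finsetProd_X_sub_C_eq_card]
    simp
  have h3 : (∏ a, (Polynomial.X - Polynomial.C (T a))).natDegree = E := by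
    rw [Polynomial.natDegree_finsetProd_X_sub_C_eq_card]
    simp
  rw [h1, h3]

end Pool.Agent.H58.HIT
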