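import Pool.Agent.H18.HIT.Targets

/-!
# PAP: coefficients of products of approximated linear factors
-/

set_option autoImplicit false

open MvPolynomial
open Pool.Agent.H12.ZD (pmap v O Res DenseOrbit NoInv v_nonneg v_zero v_one v_neg v_mul v_pow
  v_eq_zero v_add_le' v_sub_le' v_intCast_le mem_O)
open Pool.Agent.H18.HIT

namespace Pool.Agent.H58.HIT

variable (p : Nat.Primes) (t : ℤ)

/-- the value at `t` of the truncation of `U` -/
noncomputable def tv (L : ℕ) (U : PowerSeries (O p)) : Qb :=
  (((PowerSeries.trunc L U).eval ((t : ℤ) : O p) : O p) : Qb)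

/-- `x` is the value of the power series `U` at `t` -/
def Cp (x : Qb) (U : PowerSeries (O p)) : Prop :=
  v p x ≤ 1 ∧ ∀ L : ℕ, v p (x - tv p t L U) ≤ v p (t : Qb) ^ L

variable {p t}

lemma tv_le (L : ℕ) (U : PowerSeries (O p)) : v p (tv p t L U) ≤ 1 :=
  (mem_O p).1 ((PowerSeries.trunc L U).eval ((t : ℤ) : O p)).2

lemma tv_add (L : ℕ) (U U' : PowerSeries (O p)) :
    tv p t L (U + U') = tv p t L U + tv p t L U' := by
  unfold tv
  rw [map_add, Polynomial.eval_add]
  rfl

lemma tv_neg (L : ℕ) (U : PowerSeries (O p)) : tv p t L (-U) = -tv p t L U := by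
  unfold tv
  rw [map_neg, Polynomial.eval_neg]
  rfl

lemma tv_mul (L : ℕ) (U U' : PowerSeries (O p)) :
    v p (tv p t L U * tv p t L U' - tv p t L (U * U')) ≤ v p (t : Qb) ^ L := by
  have h1 : (Polynomial.X : Polynomial (O p)) ^ L ∣
      PowerSeries.trunc L U * PowerSeries.trunc L U' - PowerSeries.trunc L (U * U') := by
    rw [Polynomial.X_pow_dvd_iff]
    intro d hd
    rw [Polynomial.coeff_sub, Polynomial.coeff_mul, PowerSeries.coeff_trunc, if_pos hd,
      PowerSeries.coeff_mul, sub_eq_zero]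
    refine Finset.sum_congr rfl fun q hq => ?_
    have h2 : q.1 + q.2 = d := Finset.HasAntidiagonal.mem_antidiagonal.1 hq
    rw [PowerSeries.coeff_trunc, PowerSeries.coeff_trunc, if_pos (by omega), if_pos (by omega)]
  obtain ⟨R, hR⟩ := h1
  have h3 : tv p t L U * tv p t L U' - tv p t L (U * U') =
      (t : Qb) ^ L * ((R.eval ((t : ℤ) : O p) : O p) : Qb) := by
    have h4 := congrArg (fun q : Polynomial (O p) => ((q.eval ((t : ℤ) : O p) : O p) : Qb)) hR
    simp only [Polynomial.eval_sub, Polynomial.eval_mul, Polynomial.eval_pow,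
      Polynomial.eval_X] at h4
    unfold tv
    have h5 : (((((t : ℤ) : O p)) : O p) : Qb) = (t : Qb) := by norm_cast
    rw [← h5]
    exact h4
  rw [h3, v_mul, v_pow]
  have h6 : v p (((R.eval ((t : ℤ) : O p) : O p) : Qb)) ≤ 1 := (mem_O p).1 (R.eval _).2
  calc v p (t : Qb) ^ L * v p (((R.eval ((t : ℤ) : O p) : O p) : Qb)) ≤ v p (t : Qb) ^ L * 1 :=
        mul_le_mul_of_nonneg_left h6 (pow_nonneg (v_nonneg p _) _)
    _ = v p (t : Qb) ^ L := mul_one _

lemma Cp.add {x x' : Qb} {U U' : PowerSeries (O p)} (h : Cp p t x U) (h' : Cp p t x' U') :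
    Cp p t (x + x') (U + U') := by
  refine ⟨v_add_le' p h.1 h'.1, fun L => ?_⟩
  rw [tv_add]
  have h1 : x + x' - (tv p t L U + tv p t L U') = (x - tv p t L U) + (x' - tv p t L U') := by ring
  rw [h1]
  exact v_add_le' p (h.2 L) (h'.2 L)

lemma Cp.neg {x : Qb} {U : PowerSeries (O p)} (h : Cp p t x U) : Cp p t (-x) (-U) := by
  refine ⟨by rw [v_neg]; exact h.1, fun L => ?_⟩
  rw [tv_neg]
  have h1 : -x - -tv p t L U = -(x - tv p t L U) := by ring
  rw [h1, v_neg]
  exact h.2 L

lemma Cp.mul {x x' : Qb} {U U' : PowerSeries (O p)} (h : Cp p t x U) (h' : Cp p t x' U') :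
    Cp p t (x * x') (U * U') := by
  refine ⟨by rw [v_mul]; exact mul_le_one₀ h.1 (v_nonneg p _) h'.1, fun L => ?_⟩
  have h1 : x * x' - tv p t L (U * U') = (x * (x' - tv p t L U') +
      tv p t L U' * (x - tv p t L U)) + (tv p t L U * tv p t L U' - tv p t L (U * U')) := by
    ring
  rw [h1]
  refine v_add_le' p (v_add_le' p ?_ ?_) (tv_mul L U U')
  · rw [v_mul]
    calc v p x * v p (x' - tv p t L U') ≤ 1 * v p (t : Qb) ^ L :=
          mul_le_mul h.1 (h'.2 L) (v_nonneg p _) zero_le_one
      _ = _ := one_mul _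
  · rw [v_mul]
    calc v p (tv p t L U') * v p (x - tv p t L U) ≤ 1 * v p (t : Qb) ^ L :=
          mul_le_mul (tv_le L U') (h.2 L) (v_nonneg p _) zero_le_one
      _ = _ := one_mul _

lemma cp_zero : Cp p t 0 0 := by
  refine ⟨by rw [v_zero]; exact zero_le_one, fun L => ?_⟩
  have h1 : tv p t L 0 = 0 := by
    unfold tv
    rw [map_zero, Polynomial.eval_zero]
    rfl
  rw [h1, sub_zero, v_zero]
  exact pow_nonneg (v_nonneg p _) _

lemma cp_int (n : ℤ) : Cp p t (n : Qb) (PowerSeries.C ((n : ℤ) : O p)) := by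
  refine ⟨v_intCast_le p n, fun L => ?_⟩
  rcases Nat.eq_zero_or_pos L with h | h
  · subst h
    rw [pow_zero]
    exact v_sub_le' p (v_intCast_le p n) (tv_le 0 _)
  · obtain ⟨m, rfl⟩ := Nat.exists_eq_succ_of_ne_zero h.ne'
    have h1 : tv p t (m + 1) (PowerSeries.C ((n : ℤ) : O p)) = (n : Qb) := by
      unfold tv
      rw [PowerSeries.trunc_C, Polynomial.eval_C]
      norm_cast
    rw [Nat.succ_eq_add_one, h1, sub_self, v_zero]
    exact pow_nonneg (v_nonneg p _) _

lemma cp_one : Cp p t 1 1 := by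
  have h := cp_int (p := p) (t := t) 1
  rw [Int.cast_one, Int.cast_one, map_one] at h
  exact h

theorem pf_PAP : T_PAP := by
  classical
  intro p E T J t ρ ht hρ
  have hC : ∀ a, Cp p t (ρ a) (T a) := fun a => hρ a
  have key : ∀ j, Cp p t ((∏ a ∈ J, (Polynomial.X - Polynomial.C (ρ a))).coeff j)
      ((∏ a ∈ J, (Polynomial.X - Polynomial.C (T a))).coeff j) := by
    induction J using Finset.induction_on with
    | empty =>
      intro j
      rw [Finset.prod_empty, Finset.prod_empty, Polynomial.coeff_one, Polynomial.coeff_one]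
      split_ifs
      · exact cp_one
      · exact cp_zero
    | insert a J ha ih =>
      intro j
      rw [Finset.prod_insert ha, Finset.prod_insert ha, sub_mul, sub_mul, Polynomial.coeff_sub,
        Polynomial.coeff_sub, Polynomial.coeff_C_mul, Polynomial.coeff_C_mul, sub_eq_add_neg,
        sub_eq_add_neg]
      refine Cp.add ?_ ((hC a).mul (ih j)).neg
      cases j with
      | zero =>
        rw [Polynomial.coeff_X_mul_zero, Polynomial.coeff_X_mul_zero]
        exact cp_zero
      | succ j =>
        rw [Polynomial.coeff_X_mul, Polynomial.coeff_X_mul]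
        exact ih j
  intro j L
  exact (key j).2 L

lemma cp_X (ht : v p (t : Qb) ≤ 1) : Cp p t (t : Qb) PowerSeries.X := by
  refine ⟨ht, fun L => ?_⟩
  match L with
  | 0 =>
    rw [pow_zero]
    exact v_sub_le' p ht (tv_le 0 _)
  | 1 =>
    have h1 : tv p t 1 PowerSeries.X = 0 := by
      unfold tv
      have h2 : PowerSeries.trunc 1 (PowerSeries.X : PowerSeries (O p)) = 0 := by
        ext n
        rw [PowerSeries.coeff_trunc, Polynomial.coeff_zero]
        split_ifs with h3
        · have : n = 0 := by omega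
          subst this
          rw [PowerSeries.coeff_zero_X]
        · rfl
      rw [h2, Polynomial.eval_zero]
      rfl
    rw [h1, sub_zero, pow_one]
  | m + 2 =>
    have h1 : tv p t (m + 2) PowerSeries.X = (t : Qb) := by
      unfold tv
      rw [PowerSeries.trunc_X, Polynomial.eval_X]
      norm_cast
    rw [h1, sub_self, v_zero]
    exact pow_nonneg (v_nonneg p _) _

lemma cp_poly (ht : v p (t : Qb) ≤ 1) (g : Polynomial ℤ) :
    Cp p t ((g.eval t : ℤ) : Qb) (toPS p g) := by
  induction g using Polynomial.induction_on' with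
  | add f g hf hg =>
    rw [Polynomial.eval_add, Int.cast_add, map_add]
    exact hf.add hg
  | monomial n a =>
    have h1 : Polynomial.monomial n a = Polynomial.C a * Polynomial.X ^ n :=
      (Polynomial.C_mul_X_pow_eq_monomial).symm
    rw [h1, map_mul, map_pow, Polynomial.eval_mul, Polynomial.eval_pow, Polynomial.eval_C,
      Polynomial.eval_X, Int.cast_mul, Int.cast_pow]
    have h2 : toPS p (Polynomial.C a) = PowerSeries.C ((a : ℤ) : O p) := by
      unfold toPS
      rw [RingHom.comp_apply, Polynomial.coe_mapRingHom, Polynomial.map_C]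
      exact Polynomial.coe_C _
    have h3 : toPS p Polynomial.X = PowerSeries.X := by
      unfold toPS
      rw [RingHom.comp_apply, Polynomial.coe_mapRingHom, Polynomial.map_X]
      exact Polynomial.coe_X
    rw [h2, h3]
    refine (cp_int a).mul ?_
    clear h1
    induction n with
    | zero =>
      rw [pow_zero, pow_zero]
      exact cp_one
    | succ n ih =>
      rw [pow_succ, pow_succ]
      exact ih.mul (cp_X ht)

lemma cp_eval (ht : v p (t : Qb) ≤ 1) {u : ℤ} {U : PowerSeries (O p)} (hU : Cp p t (u : Qb) U)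
    (Y : Polynomial (Polynomial ℤ)) :
    Cp p t (((Y.map (Polynomial.evalRingHom t)).eval u : ℤ) : Qb) (Y.eval₂ (toPS p) U) := by
  induction Y using Polynomial.induction_on' with
  | add f g hf hg =>
    rw [Polynomial.map_add, Polynomial.eval_add, Int.cast_add, Polynomial.eval₂_add]
    exact hf.add hg
  | monomial n a =>
    rw [Polynomial.map_monomial, Polynomial.eval_monomial, Int.cast_mul, Int.cast_pow,
      Polynomial.eval₂_monomial]
    refine (cp_poly ht a).mul ?_
    induction n with
    | zero =>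
      rw [pow_zero, pow_zero]
      exact cp_one
    | succ n ih =>
      rw [pow_succ, pow_succ]
      exact ih.mul hU

theorem pf_VAL : T_VAL := by
  intro p Y U hY t u ht hu
  have hU : Cp p t (u : Qb) U := ⟨v_intCast_le p u, hu⟩
  have h1 := cp_eval ht.le hU Y
  rw [hY] at h1
  have h2 : ∀ L : ℕ, v p (((Y.map (Polynomial.evalRingHom t)).eval u : ℤ) : Qb) ≤
      v p (t : Qb) ^ L := by
    intro L
    have h3 := h1.2 L
    have h4 : tv p t L 0 = 0 := by
      unfold tv
      rw [map_zero, Polynomial.eval_zero]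
      rfl
    rw [h4, sub_zero] at h3
    exact h3
  have h3 : v p (((Y.map (Polynomial.evalRingHom t)).eval u : ℤ) : Qb) ≤ 0 :=
    ge_of_tendsto' (tendsto_pow_atTop_nhds_zero_of_lt_one (v_nonneg p _) ht) h2
  have h4 : v p (((Y.map (Polynomial.evalRingHom t)).eval u : ℤ) : Qb) = 0 :=
    le_antisymm h3 (v_nonneg p _)
  have h5 := (v_eq_zero p).1 h4
  exact_mod_cast h5

end Pool.Agent.H58.HIT
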